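import Pool.Agent.L5helper98.NG.Defs

set_option autoImplicit false

open MeasureTheory ProbabilityTheory Filter Topology Set
open scoped ENNReal

namespace Pool.Agent.L5helper40.NG

open Pool.Agent.L5helper98.NG

theorem sym_sum {n : ℕ} (a : Fin n → Fin n → ℝ) (hs : ∀ i j, a i j = a j i) :
    ∑ i, ∑ j, a i j = ∑ i, a i i +
      2 * ∑ i, ∑ j ∈ Finset.univ.filter (fun j => i < j), a i j := by
  have h1 : ∀ i, ∑ j, a i j = a i i + ((∑ j, if i < j then a i j else 0) +
      (∑ j, if j < i then a i j else 0)) := by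
    intro i
    have h2 : ∀ j, a i j = (if j = i then a i j else 0) + ((if i < j then a i j else 0) +
        (if j < i then a i j else 0)) := by
      intro j
      rcases lt_trichotomy i j with h | h | h
      · simp [h, h.ne', not_lt.2 h.le]
      · subst h; simp
      · simp [h, h.ne, not_lt.2 h.le]
    calc ∑ j, a i j = ∑ j, ((if j = i then a i j else 0) + ((if i < j then a i j else 0) +
        (if j < i then a i j else 0))) := Finset.sum_congr rfl fun j _ => h2 j
      _ = _ := by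
        rw [Finset.sum_add_distrib, Finset.sum_add_distrib, Finset.sum_ite_eq']
        simp
  have h3 : ∑ i : Fin n, (∑ j : Fin n, if j < i then a i j else 0) =
      ∑ i : Fin n, (∑ j : Fin n, if i < j then a i j else 0) := by
    rw [Finset.sum_comm]
    refine Finset.sum_congr rfl fun i _ => Finset.sum_congr rfl fun j _ => ?_
    rw [hs j i]
  simp only [Finset.sum_filter]
  rw [Finset.sum_congr rfl fun i _ => h1 i, Finset.sum_add_distrib, Finset.sum_add_distrib, h3]
  ring

/-- the measure `β ∑ δ_{x_i}` -/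
noncomputable def rho {d m : ℕ} (β : ℝ) (x : Fin m → Fin d → ℝ) : Measure (Fin d → ℝ) :=
  ∑ i, ENNReal.ofReal β • Measure.dirac (x i)

theorem int_rho {d m : ℕ} (β : ℝ) (hβ : 0 ≤ β) (x : Fin m → Fin d → ℝ)
    (f : (Fin d → ℝ) → ℝ) : ∫ y, f y ∂(rho β x) = β * ∑ i, f (x i) := by
  unfold rho
  rw [integral_finsetSum_measure]
  · rw [Finset.mul_sum]
    refine Finset.sum_congr rfl fun i _ => ?_
    rw [integral_smul_measure, integral_dirac, ENNReal.toReal_ofReal hβ, smul_eq_mul]
  · intro i _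
    exact (integrable_dirac (by simp)).smul_measure ENNReal.ofReal_ne_top

theorem rho_univ {d m : ℕ} (β : ℝ) (x : Fin m → Fin d → ℝ) :
    rho β x univ ≤ ENNReal.ofReal (m * β) := by
  unfold rho
  rw [Measure.finsetSum_apply]
  simp only [Measure.smul_apply, measure_univ, smul_eq_mul, mul_one, Finset.sum_const,
    Finset.card_univ, Fintype.card_fin, nsmul_eq_mul]
  rw [ENNReal.ofReal_mul (Nat.cast_nonneg m), ENNReal.ofReal_natCast]

theorem rho_compl {d m : ℕ} (β : ℝ) (x : Fin m → Fin d → ℝ) (hx : ∀ i, x i ∈ cube d) :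
    rho β x (cube d)ᶜ = 0 := by
  unfold rho
  have hc : MeasurableSet (cube d) := measurableSet_Icc
  rw [Measure.finsetSum_apply]
  refine Finset.sum_eq_zero fun i _ => ?_
  rw [Measure.smul_apply, Measure.dirac_apply' _ hc.compl]
  simp [hx i]

theorem KB_holds (mg : St_MG) (zb : St_ZB) : St_KB := by
  intro d Ω _ P _ X hX β hβ m
  obtain ⟨C2, hC2⟩ := hX.cov_diag
  obtain ⟨δ, C3, hδ, hC3⟩ := hX.cov
  obtain ⟨C1, hC1, hmg⟩ := mg d Ω P X hX (m * β) (by positivity)
  obtain ⟨_, C4, hC4, hzb⟩ := zb d Ω P X hX β hβ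
  refine ⟨δ, β ^ 2 / 2 * (m * |C2|) + β ^ 2 * (m * (m * |C3|)) + C1 + m * C4, hδ, by positivity,
    ?_⟩
  intro n x hx hne hxδ
  set V : ℝ := Cv P X n 0 0 with hV
  obtain ⟨_, hlo, hup⟩ := hmg n (rho β x) (rho_compl β x hx) (rho_univ β x)
  have hS : ∀ o, ∫ y, S X n o y ∂(rho β x) = β * ∑ i, S X n o (x i) := fun o =>
    int_rho β hβ.le x _
  simp only [hS] at hlo hup
  have hCC : ∫ y, ∫ z, Cv P X n y z ∂(rho β x) ∂(rho β x) =
      β ^ 2 * ∑ i, ∑ j, Cv P X n (x i) (x j) := by
    have h1 : ∀ y, ∫ z, Cv P X n y z ∂(rho β x) = β * ∑ j, Cv P X n y (x j) := fun y =>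
      int_rho β hβ.le x _
    simp only [h1]
    rw [int_rho β hβ.le x, ← Finset.mul_sum]
    ring
  have hsymm : ∀ i j, Cv P X n (x i) (x j) = Cv P X n (x j) (x i) := by
    intro i j
    unfold Cv
    refine Finset.sum_congr rfl fun k _ => ?_
    congr 1
    funext o
    ring
  rw [hCC, sym_sum _ hsymm] at hlo hup
  -- the diagonal
  have hdiag : |∑ i, Cv P X n (x i) (x i) - m * V| ≤ m * |C2| := by
    have h1 : ∑ i, Cv P X n (x i) (x i) - m * V = ∑ i, (Cv P X n (x i) (x i) - V) := by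
      rw [Finset.sum_sub_distrib]
      simp
    rw [h1]
    calc |∑ i, (Cv P X n (x i) (x i) - V)| ≤ ∑ i, |Cv P X n (x i) (x i) - V| :=
          Finset.abs_sum_le_sum_abs _ _
      _ ≤ ∑ _i : Fin m, |C2| := Finset.sum_le_sum fun i _ =>
          (hC2 n (x i) (hx i)).trans (le_abs_self _)
      _ = m * |C2| := by simp
  -- off the diagonal
  have hoff : |∑ i, ∑ j ∈ Finset.univ.filter (fun j => i < j), Cv P X n (x i) (x j) -
      ∑ i, ∑ j ∈ Finset.univ.filter (fun j => i < j), min (Real.log (1 / ‖x i - x j‖)) V| ≤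
      m * (m * |C3|) := by
    rw [← Finset.sum_sub_distrib]
    calc |∑ i, (∑ j ∈ Finset.univ.filter (fun j => i < j), Cv P X n (x i) (x j) -
        ∑ j ∈ Finset.univ.filter (fun j => i < j), min (Real.log (1 / ‖x i - x j‖)) V)|
        ≤ ∑ i, |∑ j ∈ Finset.univ.filter (fun j => i < j), Cv P X n (x i) (x j) -
        ∑ j ∈ Finset.univ.filter (fun j => i < j), min (Real.log (1 / ‖x i - x j‖)) V| :=
          Finset.abs_sum_le_sum_abs _ _
      _ ≤ ∑ _i : Fin m, (m * |C3|) := by
          refine Finset.sum_le_sum fun i _ => ?_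
          rw [← Finset.sum_sub_distrib]
          calc |∑ j ∈ Finset.univ.filter (fun j => i < j), (Cv P X n (x i) (x j) -
                min (Real.log (1 / ‖x i - x j‖)) V)|
              ≤ ∑ j ∈ Finset.univ.filter (fun j => i < j), |Cv P X n (x i) (x j) -
                min (Real.log (1 / ‖x i - x j‖)) V| := Finset.abs_sum_le_sum_abs _ _
            _ ≤ ∑ j ∈ Finset.univ.filter (fun j => i < j), |C3| := by
                refine Finset.sum_le_sum fun j hj => ?_
                have hij : i ≠ j := (Finset.mem_filter.1 hj).2.ne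
                exact (hC3 n (x i) (hx i) (x j) (hx j) (hne i j hij) (hxδ i j)).trans
                  (le_abs_self _)
            _ ≤ ∑ _j : Fin m, |C3| := Finset.sum_le_sum_of_subset_of_nonneg
                (Finset.filter_subset _ _) fun _ _ _ => abs_nonneg _
            _ = m * |C3| := by simp
      _ = m * (m * |C3|) := by simp
  -- the normalisation
  have hZlo : Real.exp (m * (β ^ 2 * V / 2 - C4)) ≤ ∏ i, Zf P X β n (x i) := by
    have h1 : Real.exp (m * (β ^ 2 * V / 2 - C4)) = ∏ _i : Fin m, Real.exp (β ^ 2 * V / 2 - C4) := by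
      rw [Finset.prod_const, Finset.card_univ, Fintype.card_fin, ← Real.exp_nat_mul]
    rw [h1]
    exact Finset.prod_le_prod (fun i _ => (Real.exp_pos _).le) fun i _ =>
      (hzb n (x i) (hx i)).2.1
  have hZup : ∏ i, Zf P X β n (x i) ≤ Real.exp (m * (β ^ 2 * V / 2 + C4)) := by
    have h1 : Real.exp (m * (β ^ 2 * V / 2 + C4)) = ∏ _i : Fin m, Real.exp (β ^ 2 * V / 2 + C4) := by
      rw [Finset.prod_const, Finset.card_univ, Fintype.card_fin, ← Real.exp_nat_mul]
    rw [h1]
    exact Finset.prod_le_prod (fun i _ => (Real.exp_pos _).le.trans (hzb n (x i) (hx i)).2.1)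
      fun i _ => (hzb n (x i) (hx i)).2.2
  have hZpos : 0 < ∏ i, Zf P X β n (x i) := (Real.exp_pos _).trans_le hZlo
  obtain ⟨hd1, hd2⟩ := abs_le.1 hdiag
  obtain ⟨ho1, ho2⟩ := abs_le.1 hoff
  set A : ℝ := ∑ i, Cv P X n (x i) (x i) with hA
  set B : ℝ := ∑ i, ∑ j ∈ Finset.univ.filter (fun j => i < j), Cv P X n (x i) (x j) with hB
  set M : ℝ := ∑ i, ∑ j ∈ Finset.univ.filter (fun j => i < j),
    min (Real.log (1 / ‖x i - x j‖)) V with hM
  have hb2 : 0 ≤ β ^ 2 := sq_nonneg β
  constructor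
  · rw [le_div_iff₀ hZpos]
    refine (mul_le_mul_of_nonneg_left hZup (Real.exp_pos _).le).trans ?_
    rw [← Real.exp_add]
    refine (Real.exp_le_exp.2 ?_).trans hlo
    have h1 := mul_le_mul_of_nonneg_left hd1 (by positivity : 0 ≤ β ^ 2 / 2)
    have h2 := mul_le_mul_of_nonneg_left ho1 hb2
    nlinarith [h1, h2]
  · rw [div_le_iff₀ hZpos]
    refine le_trans ?_ (mul_le_mul_of_nonneg_left hZlo (Real.exp_pos _).le)
    rw [← Real.exp_add]
    refine hup.trans (Real.exp_le_exp.2 ?_)
    have h1 := mul_le_mul_of_nonneg_left hd2 (by positivity : 0 ≤ β ^ 2 / 2)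
    have h2 := mul_le_mul_of_nonneg_left ho2 hb2
    nlinarith [h1, h2]

end Pool.Agent.L5helper40.NG
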